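import Pool.Agent.Y938.SH.Stm

set_option autoImplicit false

open Filter Topology Set

namespace Pool.Agent.Y938.SH

/-- the final assembly -/
theorem final (hline : S_line) (hhigh : S_high) (htr : S_transport) (hsph : S_sphere) :
    ∀ n : ℕ, 2 ≤ n →
      ∀ C : Set ↥(Metric.sphere (0 : EuclideanSpace ℝ (Fin n)) (1 : ℝ)),
        IsClosed C → C.Nonempty →
        ∃ H : ℕ → (↥(Metric.sphere (0 : EuclideanSpace ℝ (Fin n)) (1 : ℝ)) ≃ₜ
                    ↥(Metric.sphere (0 : EuclideanSpace ℝ (Fin n)) (1 : ℝ))),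
          (∀ p : ↥(Metric.sphere (0 : EuclideanSpace ℝ (Fin n)) (1 : ℝ)),
              ∃ q ∈ C, Tendsto (fun k : ℕ => H k p) atTop (𝓝 q)) ∧
          (∀ q ∈ C, ∃ p : ↥(Metric.sphere (0 : EuclideanSpace ℝ (Fin n)) (1 : ℝ)),
              Tendsto (fun k : ℕ => H k p) atTop (𝓝 q)) := by
  intro n hn C hC hne
  obtain ⟨m, rfl⟩ : ∃ m, n = m + 1 := ⟨n - 1, by omega⟩
  refine hsph m (by omega) ?_ C hC hne
  intro V _ _ _ hV
  by_cases hm : m = 1
  · have h1 : Module.finrank ℝ ℝ = Module.finrank ℝ V := by rw [hV, hm]; simp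
    obtain ⟨e⟩ := FiniteDimensional.nonempty_continuousLinearEquiv_of_finrank_eq h1
    exact htr ℝ V e hline
  · obtain ⟨l, rfl⟩ : ∃ l, m = l + 2 := ⟨m - 2, by omega⟩
    have h1 : Module.finrank ℝ (ℝ × EuclideanSpace ℝ (Fin (l + 1))) = Module.finrank ℝ V := by
      rw [hV, Module.finrank_prod]; simp; ring
    obtain ⟨e⟩ := FiniteDimensional.nonempty_continuousLinearEquiv_of_finrank_eq h1
    exact htr _ V e (hhigh _)

end Pool.Agent.Y938.SH
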