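import Pool.Agent.Y938.SH.Stm

/-!
Project SH, job SH2d (helper459): the higher dimensional case.
-/

set_option autoImplicit false

open Filter Topology Set

namespace Pool.Agent.Y938.SH

namespace High

/-- extension of a finite sequence by `false` -/
def ext (k : ℕ) (s : Fin k → Bool) : ℕ → Bool := fun i => if h : i < k then s ⟨i, h⟩ else false

theorem ext_tendsto (z : ℕ → Bool) :
    Tendsto (fun k => ext k (fun i : Fin k => z i)) atTop (𝓝 z) := by
  rw [tendsto_pi_nhds]
  intro i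
  refine tendsto_const_nhds.congr' ?_
  filter_upwards [eventually_gt_atTop i] with k hk
  simp [ext, hk]

/-- growth of the second coordinate -/
theorem grow {W : Type} [NormedAddCommGroup W] [NormedSpace ℝ W] (e1 : W) (he1 : ‖e1‖ = 1)
    (N M : ℕ → ℝ) (hM : ∀ k, 0 ≤ M k) (hN : ∀ k, N k = (k + 1) * (1 + M k))
    (D : ℝ) (hD : 0 ≤ D) (y : W) (hy : y ≠ 0 ∨ 0 < D) (ψ : ℕ → W)
    (hψ : ∀ᶠ k in atTop, ‖ψ k‖ ≤ M k) :
    Tendsto (fun k => ‖(N k ^ 2) • y + ((N k * D) • e1 + ψ k)‖) atTop atTop := by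
  have hNk : ∀ k : ℕ, (k : ℝ) + 1 ≤ N k := fun k => by
    rw [hN]
    have := hM k
    have hk : (0 : ℝ) ≤ k := Nat.cast_nonneg k
    nlinarith
  have hNM : ∀ k, M k ≤ N k := fun k => by
    rw [hN]
    have := hM k
    have hk : (0 : ℝ) ≤ k := Nat.cast_nonneg k
    nlinarith
  have hN0 : ∀ k, 0 ≤ N k := fun k => le_trans (by positivity) (hNk k)
  have hlow : ∀ k, ‖ψ k‖ ≤ M k →
      N k ^ 2 * ‖y‖ - N k * D - M k ≤ ‖(N k ^ 2) • y + ((N k * D) • e1 + ψ k)‖ ∧
      (y = 0 → N k * D - M k ≤ ‖(N k ^ 2) • y + ((N k * D) • e1 + ψ k)‖) := by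
    intro k hk
    have h1 : ‖(N k ^ 2) • y‖ = N k ^ 2 * ‖y‖ := by
      rw [norm_smul, Real.norm_of_nonneg (by positivity)]
    have h2 : ‖(N k * D) • e1‖ = N k * D := by
      rw [norm_smul, Real.norm_of_nonneg (mul_nonneg (hN0 k) hD), he1, mul_one]
    have h3 := norm_add_le ((N k * D) • e1) (ψ k)
    have h4 : ‖(N k ^ 2) • y‖ ≤ ‖(N k ^ 2) • y + ((N k * D) • e1 + ψ k)‖ +
        ‖(N k * D) • e1 + ψ k‖ := by
      have := norm_sub_le ((N k ^ 2) • y + ((N k * D) • e1 + ψ k)) ((N k * D) • e1 + ψ k)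
      simpa using this
    refine ⟨by linarith, ?_⟩
    rintro rfl
    have h5 : ‖(N k * D) • e1‖ ≤ ‖(N k * D) • e1 + ψ k‖ + ‖ψ k‖ := by
      have := norm_sub_le ((N k * D) • e1 + ψ k) (ψ k)
      simpa using this
    rw [smul_zero, zero_add]
    linarith
  have hcast : Tendsto (fun k : ℕ => (k : ℝ) + 1) atTop atTop :=
    tendsto_atTop_add_const_right _ _ tendsto_natCast_atTop_atTop
  by_cases hy0 : y = 0
  · have hD0 : 0 < D := hy.resolve_left (fun h => h hy0)
    have ht : Tendsto (fun k : ℕ => ((k : ℝ) + 1) * D) atTop atTop :=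
      hcast.atTop_mul_const hD0
    have ht2 : Tendsto (fun k : ℕ => ((k : ℝ) + 1) * (D / 2)) atTop atTop :=
      hcast.atTop_mul_const (by positivity)
    refine tendsto_atTop_mono' _ ?_ ht2
    filter_upwards [hψ, ht.eventually_ge_atTop 2] with k hk hk2
    refine le_trans ?_ ((hlow k hk).2 hy0)
    have hMk := hM k
    have h1 : 1 + M k ≤ N k * D / 2 := by
      rw [hN]
      nlinarith
    have h2 : ((k : ℝ) + 1) * (D / 2) ≤ N k * (D / 2) :=
      mul_le_mul_of_nonneg_right (hNk k) (by positivity)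
    linarith
  · have hy1 : 0 < ‖y‖ := norm_pos_iff.2 hy0
    have ht : Tendsto (fun k : ℕ => ((k : ℝ) + 1) * ‖y‖) atTop atTop :=
      hcast.atTop_mul_const hy1
    refine tendsto_atTop_mono' _ ?_ hcast
    filter_upwards [hψ, ht.eventually_ge_atTop (D + 2)] with k hk hk2
    refine le_trans ?_ (hlow k hk).1
    have h1 : ((k : ℝ) + 1) * ‖y‖ ≤ N k * ‖y‖ := mul_le_mul_of_nonneg_right (hNk k) hy1.le
    have h2 : 1 ≤ N k * ‖y‖ - D - 1 := by linarith
    have h3 : N k * 1 ≤ N k * (N k * ‖y‖ - D - 1) := mul_le_mul_of_nonneg_left h2 (hN0 k)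
    have := hNk k
    have := hNM k
    nlinarith

end High

theorem high_spec (h1 : S_pts) (h2 : S_fun) (h3 : S_shear) : S_high := by
  intro W _ _ _ _ S _ _ j inf hj _hinf hdense hprop C hC hCinf
  obtain ⟨e1, he1⟩ := exists_norm_eq W (c := 1) zero_le_one
  have : Nonempty C := ⟨⟨inf, hCinf⟩⟩
  have : CompactSpace C := isCompact_iff_compactSpace.1 hC.isCompact
  obtain ⟨g, hg, hgs⟩ := exists_nat_bool_continuous_surjective_of_compact C
  have hpts : ∀ k : ℕ, ∃ (a : (Fin k → Bool) → ℝ) (b : (Fin k → Bool) → W) (r : ℝ),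
      Function.Injective b ∧ 0 < r ∧ ∀ (s : Fin k → Bool) (t : ℝ), |t| ≤ r →
        dist (j (t + a s, b s)) (g (High.ext k s) : S) < 1 / ((k : ℝ) + 1) := fun k =>
    h1 W S j hj.continuous hdense (Fin k → Bool) (fun s => (g (High.ext k s) : S))
      (1 / ((k : ℝ) + 1)) (by positivity)
  choose a b r hb hr hab using hpts
  have hfun := fun k : ℕ => h2 W cantorSet isCompact_cantorSet
    (fun x => cantorSetHomeomorphNatToBool x) cantorSetHomeomorphNatToBool.continuous k (a k) (b k)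
    (hb k)
  choose hψ' hχ' using hfun
  choose ψ hψc hψ using hψ'
  choose χ hχc hχ using hχ'
  have hbd : ∀ k : ℕ, ∃ M : ℝ, 0 ≤ M ∧ ∀ x ∈ Icc (-(k : ℝ)) k, ‖ψ k x‖ ≤ M := by
    intro k
    obtain ⟨M, hM⟩ := isCompact_Icc.exists_bound_of_continuousOn (s := Icc (-(k : ℝ)) k)
      (hψc k).continuousOn
    exact ⟨max M 0, le_max_right _ _, fun x hx => (hM x hx).trans (le_max_left _ _)⟩
  choose M hM0 hM using hbd
  have hN0 : ∀ k : ℕ, 0 < ((k : ℝ) + 1) * (1 + M k) := fun k => by
    have := hM0 k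
    positivity
  have hH := fun k : ℕ => h3 W ((((k : ℝ) + 1) * (1 + M k)) ^ 2) (min (r k) 1)
    (by have := hN0 k; positivity) (lt_min (hr k) one_pos)
    (fun x => ((((k : ℝ) + 1) * (1 + M k)) * Metric.infDist x cantorSet) • e1 + ψ k x) (χ k)
    (((continuous_const.mul (Metric.continuous_infDist_pt _)).smul continuous_const).add (hψc k))
    (hχc k)
  choose H hHe using hH
  -- the points over the Cantor set
  have key : ∀ x : cantorSet, Tendsto (fun k => j (H k ((x : ℝ), (0 : W)))) atTop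
      (𝓝 (g (cantorSetHomeomorphNatToBool x) : S)) := by
    intro x
    set z := cantorSetHomeomorphNatToBool x with hz
    have hx1 := cantorSet_subset_unitInterval x.2
    have ht : Tendsto (fun k => (g (High.ext k (fun i : Fin k => z i)) : S)) atTop (𝓝 (g z : S)) :=
      ((continuous_subtype_val.comp hg).tendsto z).comp (High.ext_tendsto z)
    have hval : ∀ k, H k ((x : ℝ), (0 : W)) =
        (min (r k) 1 * (x : ℝ) + a k (fun i : Fin k => z i), b k (fun i : Fin k => z i)) := by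
      intro k
      rw [hHe k]
      have h5 : Metric.infDist (x : ℝ) cantorSet = 0 := Metric.infDist_zero_of_mem x.2
      simp only [h5, mul_zero, zero_smul, zero_add, smul_zero, hψ k x, hχ k]
      rfl
    have hd : ∀ k, dist (j (H k ((x : ℝ), (0 : W)))) (g (High.ext k (fun i : Fin k => z i)) : S) <
        1 / ((k : ℝ) + 1) := by
      intro k
      rw [hval k]
      apply hab k
      have h0 : 0 ≤ min (r k) 1 := le_min (hr k).le zero_le_one
      rw [abs_of_nonneg (mul_nonneg h0 hx1.1)]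
      calc min (r k) 1 * (x : ℝ) ≤ r k * 1 :=
            mul_le_mul (min_le_left _ _) hx1.2 hx1.1 (hr k).le
        _ = r k := mul_one _
    have hd0 : Tendsto (fun k => dist (j (H k ((x : ℝ), (0 : W))))
        (g (High.ext k (fun i : Fin k => z i)) : S)) atTop (𝓝 0) :=
      squeeze_zero (fun _ => dist_nonneg) (fun k => (hd k).le) tendsto_one_div_add_atTop_nhds_zero_nat
    exact (tendsto_iff_of_dist hd0).2 ht
  refine ⟨H, ?_, ?_⟩
  · rintro ⟨x, y⟩
    by_cases hxy : x ∈ cantorSet ∧ y = 0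
    · obtain ⟨hx, rfl⟩ := hxy
      exact ⟨_, (g (cantorSetHomeomorphNatToBool ⟨x, hx⟩)).2, key ⟨x, hx⟩⟩
    · refine ⟨inf, hCinf, hprop _ ?_⟩
      have hyD : y ≠ 0 ∨ 0 < Metric.infDist x cantorSet := by
        by_cases hy : y = 0
        · right
          exact (isClosed_cantorSet.notMem_iff_infDist_pos ⟨0, zero_mem_cantorSet⟩).1
            (fun hx => hxy ⟨hx, hy⟩)
        · exact Or.inl hy
      have hev : ∀ᶠ k : ℕ in atTop, ‖ψ k x‖ ≤ M k := by
        obtain ⟨n, hn⟩ := exists_nat_ge |x|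
        filter_upwards [eventually_ge_atTop n] with k hk
        have : |x| ≤ k := hn.trans (by exact_mod_cast hk)
        exact hM k x (abs_le.1 this)
      have hg' := High.grow e1 he1 (fun k : ℕ => ((k : ℝ) + 1) * (1 + M k)) M hM0 (fun _ => rfl)
        (Metric.infDist x cantorSet) Metric.infDist_nonneg y hyD (fun k => ψ k x) hev
      refine tendsto_atTop_mono (fun k => ?_) hg'
      rw [hHe k]
      exact le_max_right _ _
  · intro q hq _
    obtain ⟨z, hz⟩ := hgs ⟨q, hq⟩
    refine ⟨(((cantorSetHomeomorphNatToBool.symm z : cantorSet) : ℝ), 0), ?_⟩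
    have := key (cantorSetHomeomorphNatToBool.symm z)
    rw [Homeomorph.apply_symm_apply, hz] at this
    exact this

end Pool.Agent.Y938.SH
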