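import Pool.Agent.Y938.SH.Stm

/-!
SH1 (job 10308, helper252, for helper938): the real line is good.
-/

set_option autoImplicit false

open Filter Topology Set

namespace Pool.Agent.Y938.SH

namespace Line

/-- the step function of the closed set `C1`, cut off at `-K` -/
noncomputable def F (C1 : Set ℝ) (K t : ℝ) : ℝ := sSup ({c | c ∈ C1 ∧ c ≤ t} ∪ {-K})

theorem F_bdd (C1 : Set ℝ) (K t : ℝ) : BddAbove ({c | c ∈ C1 ∧ c ≤ t} ∪ {-K}) := by
  refine ⟨max t (-K), ?_⟩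
  rintro c (⟨_, hc⟩ | hc)
  · exact le_max_of_le_left hc
  · rw [mem_singleton_iff] at hc
    exact hc ▸ le_max_right _ _

theorem F_ne (C1 : Set ℝ) (K t : ℝ) : ({c | c ∈ C1 ∧ c ≤ t} ∪ {-K}).Nonempty :=
  ⟨-K, Or.inr rfl⟩

theorem F_le (C1 : Set ℝ) (K t : ℝ) : F C1 K t ≤ max t (-K) := by
  apply csSup_le (F_ne C1 K t)
  rintro c (⟨_, hc⟩ | hc)
  · exact le_max_of_le_left hc
  · rw [mem_singleton_iff] at hc
    exact hc ▸ le_max_right _ _

theorem F_mono (C1 : Set ℝ) (K : ℝ) : Monotone (F C1 K) := by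
  intro s t hst
  apply csSup_le_csSup (F_bdd C1 K t) (F_ne C1 K s)
  rintro c (⟨h1, h2⟩ | hc)
  · exact Or.inl ⟨h1, h2.trans hst⟩
  · exact Or.inr hc

theorem le_F {C1 : Set ℝ} (K : ℝ) {t : ℝ} (ht : t ∈ C1) : t ≤ F C1 K t :=
  le_csSup (F_bdd C1 K t) (Or.inl ⟨ht, le_rfl⟩)

theorem F_congr {C1 : Set ℝ} (K : ℝ) {t t' : ℝ} (htt : t ≤ t')
    (h : ∀ c ∈ C1, c ≤ t' → c ≤ t) : F C1 K t' = F C1 K t := by
  unfold F
  congr 2
  ext c
  constructor
  · rintro ⟨h1, h2⟩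
    exact ⟨h1, h c h1 h2⟩
  · rintro ⟨h1, h2⟩
    exact ⟨h1, h2.trans htt⟩

theorem F_empty {C1 : Set ℝ} (K : ℝ) {t : ℝ} (h : ∀ c ∈ C1, ¬ c ≤ t) : F C1 K t = -K := by
  unfold F
  have h0 : {c | c ∈ C1 ∧ c ≤ t} = ∅ := by
    ext c
    constructor
    · rintro ⟨h1, h2⟩
      exact absurd h2 (h c h1)
    · intro h1
      exact absurd h1 (notMem_empty c)
  rw [h0, empty_union, csSup_singleton]

theorem F_top {C1 : Set ℝ} {K m t : ℝ} (hm : m ∈ C1) (hmt : m ≤ t) (hK : -K ≤ m)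
    (h : ∀ c ∈ C1, c ≤ t → c ≤ m) : F C1 K t = m := by
  apply le_antisymm
  · apply csSup_le (F_ne C1 K t)
    rintro c (⟨h1, h2⟩ | hc)
    · exact h c h1 h2
    · rw [mem_singleton_iff] at hc
      exact hc ▸ hK
  · exact le_csSup (F_bdd C1 K t) (Or.inl ⟨hm, hmt⟩)

/-- averaging over `[t, t + 1/K]` -/
noncomputable def G (f : ℝ → ℝ) (K t : ℝ) : ℝ := K * ∫ x in (0:ℝ)..(1/K), f (t + x)

theorem G_cont {f : ℝ → ℝ} (hf : Monotone f) (K : ℝ) : Continuous (G f K) := by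
  unfold G
  have hi : ∀ a b, IntervalIntegrable f MeasureTheory.volume a b :=
    fun a b => hf.intervalIntegrable
  have h1 : ∀ t, (∫ x in (0:ℝ)..(1/K), f (t + x))
      = (∫ x in (0:ℝ)..(t + 1/K), f x) - ∫ x in (0:ℝ)..t, f x := by
    intro t
    rw [intervalIntegral.integral_comp_add_left, add_zero,
      intervalIntegral.integral_interval_sub_left (hi _ _) (hi _ _)]
  simp only [h1]
  have hc := intervalIntegral.continuous_primitive hi 0
  exact continuous_const.mul ((hc.comp (continuous_id.add continuous_const)).sub hc)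

theorem shift_int {f : ℝ → ℝ} (hf : Monotone f) (t a b : ℝ) :
    IntervalIntegrable (fun x => f (t + x)) MeasureTheory.volume a b := by
  have h : Monotone (fun x => f (t + x)) := fun x y hxy => hf (by linarith)
  exact h.intervalIntegrable

theorem G_mono {f : ℝ → ℝ} (hf : Monotone f) {K : ℝ} (hK : 0 < K) : Monotone (G f K) := by
  intro s t hst
  unfold G
  apply mul_le_mul_of_nonneg_left _ hK.le
  apply intervalIntegral.integral_mono_on (by positivity) (shift_int hf _ _ _)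
    (shift_int hf _ _ _)
  intro x _
  exact hf (by linarith)

theorem le_G {f : ℝ → ℝ} (hf : Monotone f) {K : ℝ} (hK : 0 < K) (t : ℝ) : f t ≤ G f K t := by
  have h : (∫ _x in (0:ℝ)..(1/K), f t) ≤ ∫ x in (0:ℝ)..(1/K), f (t + x) := by
    apply intervalIntegral.integral_mono_on (by positivity) intervalIntegrable_const
      (shift_int hf _ _ _)
    intro x hx
    exact hf (by linarith [hx.1])
  rw [intervalIntegral.integral_const, smul_eq_mul, sub_zero] at h
  unfold G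
  calc f t = K * (1 / K * f t) := by field_simp
    _ ≤ _ := mul_le_mul_of_nonneg_left h hK.le

theorem G_le {f : ℝ → ℝ} (hf : Monotone f) {K : ℝ} (hK : 0 < K) (t : ℝ) :
    G f K t ≤ f (t + 1 / K) := by
  have h : (∫ x in (0:ℝ)..(1/K), f (t + x)) ≤ ∫ _x in (0:ℝ)..(1/K), f (t + 1 / K) := by
    apply intervalIntegral.integral_mono_on (by positivity) (shift_int hf _ _ _)
      intervalIntegrable_const
    intro x hx
    exact hf (by linarith [hx.2])
  rw [intervalIntegral.integral_const, smul_eq_mul, sub_zero] at h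
  unfold G
  calc _ ≤ K * (1 / K * f (t + 1 / K)) := mul_le_mul_of_nonneg_left h hK.le
    _ = f (t + 1 / K) := by field_simp

/-- the approximating map -/
noncomputable def Hm (C1 : Set ℝ) (K t : ℝ) : ℝ := G (F C1 K) K t + t / K

theorem Hm_cont (C1 : Set ℝ) (K : ℝ) : Continuous (Hm C1 K) :=
  (G_cont (F_mono C1 K) K).add (continuous_id.div_const K)

theorem Hm_strict (C1 : Set ℝ) {K : ℝ} (hK : 0 < K) : StrictMono (Hm C1 K) := by
  intro s t hst
  have h1 := G_mono (F_mono C1 K) hK hst.le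
  have h2 : s / K < t / K := div_lt_div_of_pos_right hst hK
  unfold Hm
  linarith

theorem Hm_surj (C1 : Set ℝ) {K : ℝ} (hK : 0 < K) : Function.Surjective (Hm C1 K) := by
  apply (Hm_cont C1 K).surjective
  · have h1 : Tendsto (fun t : ℝ => G (F C1 K) K 0 + t / K) atTop atTop :=
      tendsto_atTop_add_const_left _ _ (tendsto_id.atTop_div_const hK)
    apply tendsto_atTop_mono' _ _ h1
    filter_upwards [eventually_ge_atTop 0] with t ht
    have h2 := G_mono (F_mono C1 K) hK ht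
    unfold Hm
    linarith
  · have h1 : Tendsto (fun t : ℝ => G (F C1 K) K 0 + t / K) atBot atBot :=
      tendsto_atBot_add_const_left _ _ (tendsto_id.atBot_div_const hK)
    apply tendsto_atBot_mono' _ _ h1
    filter_upwards [eventually_le_atBot 0] with t ht
    have h2 := G_mono (F_mono C1 K) hK ht
    unfold Hm
    linarith

/-- the approximating homeomorphism -/
noncomputable def Hh (C1 : Set ℝ) (K : ℝ) (hK : 0 < K) : ℝ ≃ₜ ℝ :=
  (StrictMono.orderIsoOfSurjective (Hm C1 K) (Hm_strict C1 hK) (Hm_surj C1 hK)).toHomeomorph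

theorem Hh_apply (C1 : Set ℝ) (K : ℝ) (hK : 0 < K) (t : ℝ) : Hh C1 K hK t = Hm C1 K t := rfl

theorem kpos (k : ℕ) : (0:ℝ) < (k:ℝ) + 1 := by positivity

theorem tK : Tendsto (fun k : ℕ => (k:ℝ) + 1) atTop atTop :=
  tendsto_atTop_add_const_right _ _ tendsto_natCast_atTop_atTop

theorem tdiv (c : ℝ) : Tendsto (fun k : ℕ => c / ((k:ℝ) + 1)) atTop (𝓝 0) :=
  tK.const_div_atTop c

/-- case (A) -/
theorem lim_mem {C1 : Set ℝ} {t : ℝ} (ht : t ∈ C1) :
    Tendsto (fun k : ℕ => Hm C1 ((k:ℝ) + 1) t) atTop (𝓝 t) := by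
  have h1 : Tendsto (fun k : ℕ => t + t / ((k:ℝ) + 1)) atTop (𝓝 t) := by
    simpa using (tendsto_const_nhds (x := t)).add (tdiv t)
  have h2 : Tendsto (fun k : ℕ => t + 1 / ((k:ℝ) + 1) + t / ((k:ℝ) + 1)) atTop (𝓝 t) := by
    simpa using ((tendsto_const_nhds (x := t)).add (tdiv 1)).add (tdiv t)
  apply tendsto_of_tendsto_of_tendsto_of_le_of_le' h1 h2
  · filter_upwards with k
    have h3 := le_G (F_mono C1 ((k:ℝ) + 1)) (kpos k) t
    have h4 := le_F ((k:ℝ) + 1) ht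
    unfold Hm
    linarith
  · filter_upwards [tK.eventually_ge_atTop (-t)] with k hk
    have h3 := G_le (F_mono C1 ((k:ℝ) + 1)) (kpos k) t
    have h4 := F_le C1 ((k:ℝ) + 1) (t + 1 / ((k:ℝ) + 1))
    have h5 : (0:ℝ) < 1 / ((k:ℝ) + 1) := by positivity
    rw [max_eq_left (by linarith)] at h4
    unfold Hm
    linarith

/-- off `C1` the averaging does nothing eventually -/
theorem ev_G {C1 : Set ℝ} (hC : IsClosed C1) {t : ℝ} (ht : t ∉ C1) :
    ∀ᶠ k : ℕ in atTop, Hm C1 ((k:ℝ) + 1) t = F C1 ((k:ℝ) + 1) t + t / ((k:ℝ) + 1) := by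
  obtain ⟨d, hd, hball⟩ := Metric.isOpen_iff.mp hC.isOpen_compl t ht
  filter_upwards [(tdiv 1).eventually_lt_const hd] with k hk
  have h5 : (0:ℝ) < 1 / ((k:ℝ) + 1) := by positivity
  have h1 : F C1 ((k:ℝ) + 1) (t + 1 / ((k:ℝ) + 1)) = F C1 ((k:ℝ) + 1) t := by
    apply F_congr _ (by linarith)
    intro c hc hct
    by_contra hcon
    push Not at hcon
    have : c ∈ Metric.ball t d := by
      rw [Metric.mem_ball, Real.dist_eq, abs_of_pos (by linarith)]
      linarith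
    exact hball this hc
  have h2 := le_G (F_mono C1 ((k:ℝ) + 1)) (kpos k) t
  have h3 := G_le (F_mono C1 ((k:ℝ) + 1)) (kpos k) t
  rw [h1] at h3
  unfold Hm
  rw [le_antisymm h3 h2]

/-- case (B), first half -/
theorem lim_not_mem {C1 : Set ℝ} (hC : IsClosed C1) {t : ℝ} (ht : t ∉ C1)
    (hex : ∃ c ∈ C1, c ≤ t) :
    ∃ m ∈ C1, Tendsto (fun k : ℕ => Hm C1 ((k:ℝ) + 1) t) atTop (𝓝 m) := by
  have hne : (C1 ∩ Iic t).Nonempty := by
    obtain ⟨c, h1, h2⟩ := hex
    exact ⟨c, h1, h2⟩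
  have hbd : BddAbove (C1 ∩ Iic t) := ⟨t, fun c hc => hc.2⟩
  have hcl : IsClosed (C1 ∩ Iic t) := hC.inter isClosed_Iic
  have hm := hcl.csSup_mem hne hbd
  refine ⟨sSup (C1 ∩ Iic t), hm.1, ?_⟩
  have h1 : Tendsto (fun k : ℕ => sSup (C1 ∩ Iic t) + t / ((k:ℝ) + 1)) atTop
      (𝓝 (sSup (C1 ∩ Iic t))) := by
    simpa using (tendsto_const_nhds (x := sSup (C1 ∩ Iic t))).add (tdiv t)
  apply h1.congr'
  filter_upwards [ev_G hC ht, tK.eventually_ge_atTop (-sSup (C1 ∩ Iic t))] with k hk1 hk2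
  rw [hk1, F_top hm.1 hm.2 (by linarith) (fun c h1 h2 => le_csSup hbd ⟨h1, h2⟩)]

/-- case (B), second half -/
theorem lim_inf {C1 : Set ℝ} (hC : IsClosed C1) {t : ℝ} (ht : t ∉ C1)
    (hex : ∀ c ∈ C1, ¬ c ≤ t) :
    Tendsto (fun k : ℕ => ‖Hm C1 ((k:ℝ) + 1) t‖) atTop atTop := by
  have h1 : Tendsto (fun k : ℕ => ((k:ℝ) + 1) + (-|t|)) atTop atTop :=
    tendsto_atTop_add_const_right _ _ tK
  apply tendsto_atTop_mono' _ _ h1
  filter_upwards [ev_G hC ht] with k hk1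
  rw [hk1, F_empty _ hex, Real.norm_eq_abs]
  have h2 : |t / ((k:ℝ) + 1)| ≤ |t| := by
    rw [abs_div, abs_of_pos (kpos k)]
    apply div_le_self (abs_nonneg _)
    have : (0:ℝ) ≤ k := Nat.cast_nonneg k
    linarith
  have h3 := abs_le.mp h2
  have h4 := neg_abs_le (-((k:ℝ) + 1) + t / ((k:ℝ) + 1))
  linarith [h3.1, h3.2]

end Line

open Line in
/-- SH1: the real line is good. -/
theorem line_spec : S_line := by
  intro S _ _ j inf hj _ _ hinf C hC hCinf
  have hC1 : IsClosed (j ⁻¹' C) := hC.preimage hj.continuous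
  refine ⟨fun k => Hh (j ⁻¹' C) ((k:ℝ) + 1) (kpos k), ?_, ?_⟩
  · intro t
    by_cases ht : t ∈ j ⁻¹' C
    · exact ⟨j t, ht, (hj.continuous.tendsto t).comp (lim_mem ht)⟩
    · by_cases hex : ∃ c ∈ j ⁻¹' C, c ≤ t
      · obtain ⟨m, hm, hlim⟩ := lim_not_mem hC1 ht hex
        exact ⟨j m, hm, (hj.continuous.tendsto m).comp hlim⟩
      · push Not at hex
        exact ⟨inf, hCinf, hinf _ (lim_inf hC1 ht (fun c hc => not_le.mpr (hex c hc)))⟩
  · intro q hq hqinf
    obtain ⟨t, rfl⟩ := ‹∀ s : S, s ≠ inf → s ∈ range j› q hqinf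
    exact ⟨t, (hj.continuous.tendsto t).comp (lim_mem hq)⟩

end Pool.Agent.Y938.SH
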