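import Pool.Agent.Y938.SH.Stm

/-!
# Project SH (MP_1a07a1_gt): points, functions, shears
-/

set_option autoImplicit false

open Filter Topology Set

namespace Pool.Agent.Y938.SH

namespace Pts

/-- distinct points in infinitely many infinite sets -/
lemma exists_inj {ι α : Type} [Finite ι] (T : ι → Set α) (hT : ∀ s, (T s).Infinite) :
    ∃ b : ι → α, Function.Injective b ∧ ∀ s, b s ∈ T s := by
  classical
  have h1 : ∀ s, ∃ t : Finset α, ↑t ⊆ T s ∧ t.card = Nat.card ι := fun s =>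
    (hT s).exists_subset_card_eq (Nat.card ι)
  choose t ht htc using h1
  have h2 : ∀ A : Finset ι, A.card ≤ (A.biUnion t).card := by
    intro A
    rcases A.eq_empty_or_nonempty with h | ⟨s, hs⟩
    · rw [h]
      simp
    · have := Fintype.ofFinite ι
      calc A.card ≤ Fintype.card ι := Finset.card_le_univ A
        _ = Nat.card ι := Nat.card_eq_fintype_card.symm
        _ = (t s).card := (htc s).symm
        _ ≤ (A.biUnion t).card := Finset.card_le_card (Finset.subset_biUnion_of_mem t hs)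
  obtain ⟨b, hb, hbt⟩ := (Finset.all_card_le_biUnion_card_iff_exists_injective t).mp h2
  exact ⟨b, hb, fun s => ht s (hbt s)⟩

end Pts

theorem pts_spec : S_pts := by
  intro W _ _ _ _ S _ j hj hd ι _ c δ hδ
  let A : ι → Set (ℝ × W) := fun s => {v | dist (j v) (c s) < δ}
  have hAo : ∀ s, IsOpen (A s) := fun s => isOpen_lt (hj.dist continuous_const) continuous_const
  have hAn : ∀ s, (A s).Nonempty := by
    intro s
    obtain ⟨v, hv⟩ := hd.exists_dist_lt (c s) hδ
    exact ⟨v, by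
      show dist (j v) (c s) < δ
      rw [dist_comm]
      exact hv⟩
  have hB : ∀ s, (Prod.snd '' A s).Infinite := by
    intro s
    have h1 : IsOpen (Prod.snd '' A s) := isOpenMap_snd _ (hAo s)
    obtain ⟨v, hv⟩ := hAn s
    have h2 : Prod.snd '' A s ∈ 𝓝 v.2 := h1.mem_nhds ⟨v, hv, rfl⟩
    have hne : (𝓝[≠] v.2).NeBot := Module.punctured_nhds_neBot ℝ W v.2
    exact infinite_of_mem_nhds v.2 h2
  obtain ⟨b, hbi, hb⟩ := Pts.exists_inj (fun s => Prod.snd '' A s) hB
  have hv : ∀ s, ∃ v : ℝ × W, v ∈ A s ∧ v.2 = b s := fun s => hb s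
  choose v hvA hvb using hv
  have hr : ∀ s, ∃ r : ℝ, 0 < r ∧ Metric.ball (v s) r ⊆ A s := fun s =>
    Metric.isOpen_iff.mp (hAo s) (v s) (hvA s)
  choose r hr hrA using hr
  have hmin : ∃ r₀ : ℝ, 0 < r₀ ∧ ∀ s, r₀ < r s := by
    rcases isEmpty_or_nonempty ι with h | h
    · exact ⟨1, one_pos, fun s => (h.false s).elim⟩
    · obtain ⟨s₀, hs₀⟩ := Finite.exists_min r
      exact ⟨r s₀ / 2, half_pos (hr s₀), fun s => (half_lt_self (hr s₀)).trans_le (hs₀ s)⟩
  obtain ⟨r₀, hr₀, hr₀s⟩ := hmin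
  refine ⟨fun s => (v s).1, b, r₀, hbi, hr₀, ?_⟩
  intro s t ht
  have h1 : ((t + (v s).1, b s) : ℝ × W) ∈ Metric.ball (v s) (r s) := by
    rw [Metric.mem_ball, Prod.dist_eq]
    have e1 : dist (t + (v s).1) (v s).1 = |t| := by
      rw [Real.dist_eq]
      congr 1
      ring
    have e2 : dist (b s) (v s).2 = 0 := by
      rw [hvb, dist_self]
    show max (dist (t + (v s).1) (v s).1) (dist (b s) (v s).2) < r s
    rw [e1, e2]
    exact max_lt (ht.trans_lt (hr₀s s)) (hr s)
  exact hrA s h1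

theorem fun_spec : S_fun := by
  intro W _ _ _ K hK e he k a b hb
  have hbc : Continuous b := continuous_of_discreteTopology
  refine ⟨?_, ?_⟩
  · have hT : TietzeExtension W := TietzeExtension.of_tvs ℝ
    let f : C(K, W) := ⟨fun x => b (fun i => e x i),
      hbc.comp (continuous_pi fun i => (continuous_apply (i : ℕ)).comp he)⟩
    obtain ⟨g, hg⟩ := ContinuousMap.exists_restrict_eq hK.isClosed f
    refine ⟨g, g.continuous, fun x => ?_⟩
    exact DFunLike.congr_fun hg x
  · have hemb : IsClosedEmbedding b := hbc.isClosedEmbedding hb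
    let f : C(Fin k → Bool, ℝ) := ⟨a, continuous_of_discreteTopology⟩
    obtain ⟨g, hg⟩ := ContinuousMap.exists_extension hemb f
    refine ⟨g, g.continuous, fun s => ?_⟩
    exact DFunLike.congr_fun hg s

theorem shear_spec : S_shear := by
  intro W _ _ N ε hN hε φ χ hφ hχ
  have hN0 : N ≠ 0 := hN.ne'
  have hε0 : ε ≠ 0 := hε.ne'
  let F : ℝ × W → ℝ × W := fun p => (ε * p.1 + χ (N • p.2 + φ p.1), N • p.2 + φ p.1)
  let G : ℝ × W → ℝ × W := fun q => ((q.1 - χ q.2) / ε, N⁻¹ • (q.2 - φ ((q.1 - χ q.2) / ε)))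
  have hGF : ∀ p, G (F p) = p := by
    intro p
    have e1 : (ε * p.1 + χ (N • p.2 + φ p.1) - χ (N • p.2 + φ p.1)) / ε = p.1 := by
      rw [add_sub_cancel_right, mul_div_cancel_left₀ _ hε0]
    have h1 : (G (F p)).1 = p.1 := e1
    have h2 : (G (F p)).2 = p.2 := by
      show N⁻¹ • (N • p.2 + φ p.1 -
        φ ((ε * p.1 + χ (N • p.2 + φ p.1) - χ (N • p.2 + φ p.1)) / ε)) = p.2
      rw [e1, add_sub_cancel_right, inv_smul_smul₀ hN0]
    exact Prod.ext h1 h2
  have hFG : ∀ q, F (G q) = q := by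
    intro q
    have e1 : N • (N⁻¹ • (q.2 - φ ((q.1 - χ q.2) / ε))) + φ ((q.1 - χ q.2) / ε) = q.2 := by
      rw [smul_inv_smul₀ hN0, sub_add_cancel]
    have h2 : (F (G q)).2 = q.2 := e1
    have h1 : (F (G q)).1 = q.1 := by
      show ε * ((q.1 - χ q.2) / ε) +
        χ (N • (N⁻¹ • (q.2 - φ ((q.1 - χ q.2) / ε))) + φ ((q.1 - χ q.2) / ε)) = q.1
      rw [e1, mul_div_cancel₀ _ hε0, sub_add_cancel]
    exact Prod.ext h1 h2
  refine ⟨{ toFun := F, invFun := G, left_inv := hGF, right_inv := hFG,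
            continuous_toFun := ?_, continuous_invFun := ?_ }, fun x y => rfl⟩
  · show Continuous fun p : ℝ × W => (ε * p.1 + χ (N • p.2 + φ p.1), N • p.2 + φ p.1)
    fun_prop
  · show Continuous fun q : ℝ × W => ((q.1 - χ q.2) / ε, N⁻¹ • (q.2 - φ ((q.1 - χ q.2) / ε)))
    fun_prop

end Pool.Agent.Y938.SH
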