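import Pool.Agent.Y938.SH.Stm

/-!
# SH3 and SH4: transport and the sphere (helper550)
-/

set_option autoImplicit false

open Filter Topology Set

namespace Pool.Agent.Y938.SH

theorem transport_spec : S_transport := by
  intro V V' _ _ _ _ L hV S _ _ j inf hj hr hd hu C hC hinf
  have hnorm : ∀ u : ℕ → V, Tendsto (fun k => ‖u k‖) atTop atTop →
      Tendsto (fun k => ‖L (u k)‖) atTop atTop := by
    intro u h
    rw [tendsto_norm_atTop_iff_cobounded] at h ⊢
    exact L.antilipschitz.tendsto_cobounded.comp h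
  obtain ⟨H, h1, h2⟩ := hV S (fun x => j (L x)) inf (hj.comp L.toHomeomorph.isOpenEmbedding)
    (fun s hs => by
      obtain ⟨y, rfl⟩ := hr s hs
      obtain ⟨x, rfl⟩ := L.surjective y
      exact ⟨x, rfl⟩)
    (hd.comp L.surjective.denseRange hj.continuous)
    (fun u hu' => hu (fun k => L (u k)) (hnorm u hu')) C hC hinf
  refine ⟨fun k => L.symm.toHomeomorph.trans ((H k).trans L.toHomeomorph), fun p => ?_,
    fun q hq hqi => ?_⟩
  · exact h1 (L.symm p)
  · obtain ⟨p, hp⟩ := h2 q hq hqi
    refine ⟨L p, hp.congr fun k => ?_⟩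
    show j (L (H k p)) = j (L (H k (L.symm (L p))))
    rw [L.symm_apply_apply]

theorem sphere_spec : S_sphere := by
  intro n hn hgood C hC hCne
  obtain ⟨v, hv⟩ := hCne
  have hv1 : ‖(v : EuclideanSpace ℝ (Fin (n + 1)))‖ = 1 := mem_sphere_zero_iff_norm.1 v.2
  have hv0 : (v : EuclideanSpace ℝ (Fin (n + 1))) ≠ 0 := by
    intro h
    rw [h, norm_zero] at hv1
    exact zero_ne_one hv1
  have hfact : Fact (Module.finrank ℝ (EuclideanSpace ℝ (Fin (n + 1))) = n + 1) := ⟨by simp⟩
  have hfin : Module.finrank ℝ (Submodule.span ℝ {(v : EuclideanSpace ℝ (Fin (n + 1)))})ᗮ = n :=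
    Submodule.finrank_orthogonal_span_singleton hv0
  have hnt : Nontrivial (Submodule.span ℝ {(v : EuclideanSpace ℝ (Fin (n + 1)))})ᗮ :=
    Module.nontrivial_of_finrank_pos (R := ℝ) (by omega)
  have hnc : NoncompactSpace (Submodule.span ℝ {(v : EuclideanSpace ℝ (Fin (n + 1)))})ᗮ :=
    NormedSpace.noncompactSpace ℝ _
  let e : OnePoint (Submodule.span ℝ {(v : EuclideanSpace ℝ (Fin (n + 1)))})ᗮ ≃ₜ
    Metric.sphere (0 : EuclideanSpace ℝ (Fin (n + 1))) 1 := onePointHyperplaneHomeoUnitSphere hv1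
  let j : (Submodule.span ℝ {(v : EuclideanSpace ℝ (Fin (n + 1)))})ᗮ →
    Metric.sphere (0 : EuclideanSpace ℝ (Fin (n + 1))) 1 := (stereographic hv1).symm
  have hje : ∀ x : (Submodule.span ℝ {(v : EuclideanSpace ℝ (Fin (n + 1)))})ᗮ,
      e (x : OnePoint (Submodule.span ℝ {(v : EuclideanSpace ℝ (Fin (n + 1)))})ᗮ) = j x :=
    fun x => rfl
  have hinf : e OnePoint.infty = v := rfl
  have hrange : ∀ s : Metric.sphere (0 : EuclideanSpace ℝ (Fin (n + 1))) 1, s ≠ v →
      s ∈ range j := by
    intro s hs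
    show s ∈ range (stereographic hv1).symm
    rw [range_stereographic_symm hv1]
    exact hs
  have hdense : DenseRange j := by
    have h := e.surjective.denseRange.comp (OnePoint.denseRange_coe
      (X := (Submodule.span ℝ {(v : EuclideanSpace ℝ (Fin (n + 1)))})ᗮ)) e.continuous
    exact h
  have hlim : ∀ u : ℕ → (Submodule.span ℝ {(v : EuclideanSpace ℝ (Fin (n + 1)))})ᗮ,
      Tendsto (fun k => ‖u k‖) atTop atTop → Tendsto (fun k => j (u k)) atTop (𝓝 v) := by
    intro u hu
    rw [tendsto_norm_atTop_iff_cobounded, Metric.cobounded_eq_cocompact,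
      ← coclosedCompact_eq_cocompact] at hu
    have h := (e.continuous.tendsto OnePoint.infty).comp (OnePoint.tendsto_coe_infty.comp hu)
    exact h
  obtain ⟨H, h1, h2⟩ := hgood (Submodule.span ℝ {(v : EuclideanSpace ℝ (Fin (n + 1)))})ᗮ hfin
    (Metric.sphere (0 : EuclideanSpace ℝ (Fin (n + 1))) 1) j v
    (isOpenEmbedding_stereographic_symm hv1) hrange hdense hlim C hC hv
  have hHj : ∀ k x, (e.symm.trans ((H k).onePointCongr.trans e)) (j x) = j (H k x) := by
    intro k x
    show e ((H k).onePointCongr (e.symm (j x))) = j (H k x)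
    rw [← hje x, e.symm_apply_apply]
    rfl
  have hHv : ∀ k, (e.symm.trans ((H k).onePointCongr.trans e)) v = v := by
    intro k
    show e ((H k).onePointCongr (e.symm v)) = v
    have h3 : e.symm v = OnePoint.infty := e.symm_apply_apply OnePoint.infty
    rw [h3]
    exact hinf
  refine ⟨fun k => e.symm.trans ((H k).onePointCongr.trans e), fun p => ?_, fun q hq => ?_⟩
  · by_cases hp : p = v
    · refine ⟨v, hv, ?_⟩
      rw [hp]
      simp only [hHv]
      exact tendsto_const_nhds
    · obtain ⟨x, rfl⟩ := hrange p hp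
      simp only [hHj]
      exact h1 x
  · by_cases hqv : q = v
    · refine ⟨v, ?_⟩
      rw [hqv]
      simp only [hHv]
      exact tendsto_const_nhds
    · obtain ⟨x, hx⟩ := h2 q hq hqv
      refine ⟨j x, ?_⟩
      simp only [hHj]
      exact hx

end Pool.Agent.Y938.SH
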