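import Mathlib

/-!
Project SH (MP_1a07a1_gt, frozen statement S12835): every nonempty closed subset of the sphere is the
image of a pointwise limit of self-homeomorphisms.
-/

set_option autoImplicit false

open Filter Topology Set

namespace Pool.Agent.Y938.SH

/-- `V` is good: for every metrizable one-point compactification `j : V → S`, `S = j(V) ∪ {inf}`, every
closed set `C ∋ inf` of `S` is, up to the point `inf`, the image of a pointwise limit of
self-homeomorphisms of `V`. -/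
def Good (V : Type) [NormedAddCommGroup V] : Prop :=
  ∀ (S : Type) [MetricSpace S] [CompactSpace S] (j : V → S) (inf : S),
    IsOpenEmbedding j → (∀ s : S, s ≠ inf → s ∈ range j) → DenseRange j →
    (∀ u : ℕ → V, Tendsto (fun k => ‖u k‖) atTop atTop → Tendsto (fun k => j (u k)) atTop (𝓝 inf)) →
    ∀ C : Set S, IsClosed C → inf ∈ C →
      ∃ H : ℕ → (V ≃ₜ V),
        (∀ p : V, ∃ q ∈ C, Tendsto (fun k => j (H k p)) atTop (𝓝 q)) ∧
        (∀ q ∈ C, q ≠ inf → ∃ p : V, Tendsto (fun k => j (H k p)) atTop (𝓝 q))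

/-- SH1. -/
def S_line : Prop := Good ℝ

/-- SH2. -/
def S_high : Prop :=
  ∀ (W : Type) [NormedAddCommGroup W] [NormedSpace ℝ W] [FiniteDimensional ℝ W] [Nontrivial W],
    Good (ℝ × W)

/-- SH2a: choice of the approximating points. -/
def S_pts : Prop :=
  ∀ (W : Type) [NormedAddCommGroup W] [NormedSpace ℝ W] [FiniteDimensional ℝ W] [Nontrivial W]
    (S : Type) [MetricSpace S] (j : ℝ × W → S), Continuous j → DenseRange j →
    ∀ (ι : Type) [Finite ι] (c : ι → S) (δ : ℝ), 0 < δ →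
      ∃ (a : ι → ℝ) (b : ι → W) (r : ℝ), Function.Injective b ∧ 0 < r ∧
        ∀ (s : ι) (t : ℝ), |t| ≤ r → dist (j (t + a s, b s)) (c s) < δ

/-- SH2b: the two functions used in the shears. -/
def S_fun : Prop :=
  ∀ (W : Type) [NormedAddCommGroup W] [NormedSpace ℝ W] [FiniteDimensional ℝ W]
    (K : Set ℝ) (_ : IsCompact K) (e : K → (ℕ → Bool)) (_ : Continuous e) (k : ℕ)
    (a : (Fin k → Bool) → ℝ) (b : (Fin k → Bool) → W), Function.Injective b →
      (∃ ψ : ℝ → W, Continuous ψ ∧ ∀ x : K, ψ x = b (fun i => e x i)) ∧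
      (∃ χ : W → ℝ, Continuous χ ∧ ∀ s, χ (b s) = a s)

/-- SH2c: the homeomorphism built from two shears. -/
def S_shear : Prop :=
  ∀ (W : Type) [NormedAddCommGroup W] [NormedSpace ℝ W] (N ε : ℝ), 0 < N → 0 < ε →
    ∀ (φ : ℝ → W) (χ : W → ℝ), Continuous φ → Continuous χ →
      ∃ H : (ℝ × W) ≃ₜ (ℝ × W), ∀ (x : ℝ) (y : W),
        H (x, y) = (ε * x + χ (N • y + φ x), N • y + φ x)

/-- SH3: transport of goodness along linear isomorphisms. -/
def S_transport : Prop :=
  ∀ (V V' : Type) [NormedAddCommGroup V] [NormedSpace ℝ V] [NormedAddCommGroup V'] [NormedSpace ℝ V'],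
    (V ≃L[ℝ] V') → Good V → Good V'

/-- SH4: from goodness to the sphere. -/
def S_sphere : Prop :=
  ∀ (n : ℕ), 1 ≤ n →
    (∀ (V : Type) [NormedAddCommGroup V] [InnerProductSpace ℝ V] [FiniteDimensional ℝ V],
      Module.finrank ℝ V = n → Good V) →
    ∀ C : Set ↥(Metric.sphere (0 : EuclideanSpace ℝ (Fin (n + 1))) (1 : ℝ)),
      IsClosed C → C.Nonempty →
      ∃ H : ℕ → (↥(Metric.sphere (0 : EuclideanSpace ℝ (Fin (n + 1))) (1 : ℝ)) ≃ₜ
                  ↥(Metric.sphere (0 : EuclideanSpace ℝ (Fin (n + 1))) (1 : ℝ))),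
        (∀ p : ↥(Metric.sphere (0 : EuclideanSpace ℝ (Fin (n + 1))) (1 : ℝ)),
            ∃ q ∈ C, Tendsto (fun k : ℕ => H k p) atTop (𝓝 q)) ∧
        (∀ q ∈ C, ∃ p : ↥(Metric.sphere (0 : EuclideanSpace ℝ (Fin (n + 1))) (1 : ℝ)),
            Tendsto (fun k : ℕ => H k p) atTop (𝓝 q))

end Pool.Agent.Y938.SH
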